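import Pool.Agent.GBS.StmtsB
import Pool.Agent.Helper23_MVS.BR3

/-!
GBS, row PIN: the integral of the absolute value of the Pontryagin density.
-/

noncomputable section

open scoped ContDiff Topology RealInnerProductSpace
open Set MeasureTheory Matrix

namespace Pool.Agent.GBS.H69

open Pool.Agent.RF Pool.Agent.MVS
open Pool.Agent.SecondKind Pool.Agent.MinVolSphere

theorem pin (hplr : PlrStmt) (hcnt : CntStmt) (hpex : PexStmt) : PinStmt := by
  intro g G hC P hP
  obtain ⟨hG, hg⟩ := hC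
  obtain ⟨hc1, -, -, hc4⟩ := hcnt G hG
  have hf : ContinuousOn (fun x => |pnt G x|) (Om (Fin 5)) := hc1.abs
  have hhom : ∀ c : ℝ, 0 < c → ∀ x ∈ Om (Fin 5),
      (fun x => |pnt G x|) (c • x) = (c ^ 5)⁻¹ * (fun x => |pnt G x|) x := by
    intro c hc x hx
    have hpos : 0 < (c ^ 5)⁻¹ := by positivity
    show |pnt G (c • x)| = (c ^ 5)⁻¹ * |pnt G x|
    rw [hc4 c hc x hx, abs_mul, abs_of_pos hpos]
  obtain ⟨hi, he⟩ := hplr (fun x => |pnt G x|) hf hhom
  refine ⟨hi, ?_⟩
  rw [he]
  unfold integ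
  rw [← integral_const_mul]
  refine integral_congr_ae (Filter.Eventually.of_forall fun x => ?_)
  have hS : OnSphere (fun i => (x : E5) i) := by
    show ∑ i, (x : E5) i ^ 2 = 1
    have h1 : ‖(x : E5)‖ = 1 := by simpa using x.2
    rw [← EuclideanSpace.real_norm_sq_eq, h1, one_pow]
  have hv : vc (fun i => (x : E5) i) = (x : E5) := by
    ext i
    rfl
  have h2 := (hpex g G ⟨hG, hg⟩).2 P hP _ hS
  rw [hv] at h2
  show |pnt G (x : E5)| = 8 * (P (fun i => (x : E5) i) * density g (fun i => (x : E5) i))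
  rw [h2, Pool.Agent.MVS.H23.density_eq hG hg hS, hv]
  ring

end Pool.Agent.GBS.H69
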